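import Pool.Agent.MP_cce4c9_lc.H87.SpecQ

/-!
Traces along exact sequences.
-/

set_option autoImplicit false

namespace Pool.Agent.MP_cce4c9_lc.H95

open LinearMap

/-- Additivity of the trace along a short exact sequence. -/
theorem short {F A B C : Type} [Field F] [AddCommGroup A] [Module F A] [AddCommGroup B]
    [Module F B] [AddCommGroup C] [Module F C] [Module.Finite F B] (i : A →ₗ[F] B)
    (κ : B →ₗ[F] C) (hi : Function.Injective i) (he : Function.Exact i κ)
    (hκ : Function.Surjective κ) (TA : A →ₗ[F] A) (TB : B →ₗ[F] B) (TC : C →ₗ[F] C)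
    (h1 : i ∘ₗ TA = TB ∘ₗ i) (h2 : κ ∘ₗ TB = TC ∘ₗ κ) :
    trace F B TB = trace F A TA + trace F C TC := by
  have : Module.Finite F A := Module.Finite.of_injective i hi
  have : Module.Finite F C := Module.Finite.of_surjective κ hκ
  obtain ⟨s, hs⟩ := κ.exists_rightInverse_of_surjective (range_eq_top.2 hκ)
  obtain ⟨r, hr⟩ := i.exists_leftInverse_of_injective (ker_eq_bot.2 hi)
  have hs' : ∀ c, κ (s c) = c := fun c => LinearMap.congr_fun hs c
  have hr' : ∀ a, r (i a) = a := fun a => LinearMap.congr_fun hr a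
  have h3 : TB = (TB ∘ₗ i) ∘ₗ (r ∘ₗ (LinearMap.id - s ∘ₗ κ)) + (TB ∘ₗ s) ∘ₗ κ := by
    ext b
    obtain ⟨a, ha⟩ := (he (b - s (κ b))).1 (by rw [map_sub, hs', sub_self])
    simp only [LinearMap.add_apply, comp_apply, LinearMap.sub_apply, id_apply]
    rw [← ha, hr', ha, ← map_add, sub_add_cancel]
  have h4 : (r ∘ₗ (LinearMap.id - s ∘ₗ κ)) ∘ₗ (TB ∘ₗ i) = TA := by
    rw [← h1]
    ext a
    simp only [comp_apply, LinearMap.sub_apply, id_apply]
    rw [he.apply_apply_eq_zero, map_zero, sub_zero, hr']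
  have h5 : κ ∘ₗ (TB ∘ₗ s) = TC := by
    rw [← comp_assoc, h2, comp_assoc, hs, comp_id]
  calc trace F B TB = trace F B ((TB ∘ₗ i) ∘ₗ (r ∘ₗ (LinearMap.id - s ∘ₗ κ))) +
        trace F B ((TB ∘ₗ s) ∘ₗ κ) := by rw [← map_add, ← h3]
    _ = _ := by rw [trace_comp_comm' _ (TB ∘ₗ i), h4, trace_comp_comm' κ (TB ∘ₗ s), h5]

theorem trx : H87.StmtTRX := by
  intro F A B M V _ _ _ _ _ _ _ _ _ _ _ i κ π hi he he' hπ
  have hk : ker π = range κ := he'.linearMap_ker_eq
  have hM : Module.Finite F M := by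
    refine ⟨Submodule.fg_of_fg_map_of_fg_inf_ker π ?_ ?_⟩
    · exact IsNoetherian.noetherian _
    · rw [top_inf_eq, hk, range_eq_map]
      exact Module.Finite.fg_top.map κ
  refine ⟨hM, fun TA TB TM TV h1 h2 h3 => ?_⟩
  have hm : ∀ x ∈ range κ, TM x ∈ range κ := by
    rintro _ ⟨b, rfl⟩
    exact ⟨TB b, LinearMap.congr_fun h2 b⟩
  have e1 := short i κ.rangeRestrict hi
    (fun b => by rw [← he b, ← mem_ker, ker_rangeRestrict, mem_ker]) κ.surjective_rangeRestrict
    TA TB (TM.restrict hm) h1 (by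
      ext b
      exact LinearMap.congr_fun h2 b)
  have e2 := short (range κ).subtype π (range κ).injective_subtype
    (fun x => by rw [← mem_ker, hk]; simp) hπ (TM.restrict hm) TM TV rfl h3
  rw [e1, e2, add_assoc]

end Pool.Agent.MP_cce4c9_lc.H95
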